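import Pool.Agent.J6H9.NX.G

/-!
# Positivity of the time constant, compactness of the set of functionals, tangency
-/

set_option autoImplicit false

open MeasureTheory ProbabilityTheory Filter Topology
open scoped ENNReal

namespace Pool.Agent.J6H9.NX

open Pool.Agent.J6H99.NX

variable {e : ℕ} {q : Par} {F : Measure ℝ} [IsProbabilityMeasure F]

/-- the functionals with the value `L v` at `v` -/
def DD (q : Par) (F : Measure ℝ) [IsProbabilityMeasure F] (v : E e) : Set (E e) :=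
  {c | c ∈ CC q F ∧ dt c v = L q F v}

variable [MB q F]

/-- the mean passage time grows linearly -/
lemma g_lower (h : FarB e q F) : ∃ c : ℝ, 0 < c ∧ ∃ N0 : ℕ, ∀ x : V e, (N0 : ℤ) ≤ n1 x →
    c * n1 x ≤ g q F x := by
  obtain ⟨c1, hc1, h⟩ := h
  obtain ⟨C, hC, h⟩ := h 1
  obtain ⟨N, hN⟩ := exists_nat_gt (2 * C)
  refine ⟨c1 / 2, by positivity, N, fun x hx => ?_⟩
  have hx0 : (0 : ℝ) ≤ n1 x := by exact_mod_cast n1_nonneg x
  have h1 := mul_meas_ge_le_integral_of_nonneg (μ := PM e F)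
    (Eventually.of_forall fun ω => T_nonneg q ω 0 x) (integrable_T q F 0 x) (c1 * n1 x)
  have hm : MeasurableSet {ω : Om e | c1 * n1 x ≤ T q ω 0 x} :=
    measurableSet_le measurable_const (measurable_T q 0 x)
  have h2 : (PM e F) {ω : Om e | c1 * n1 x ≤ T q ω 0 x}ᶜ ≤ ENNReal.ofReal (1 / 2) := by
    refine le_trans (measure_mono fun ω hω => ?_) ((h N).trans (ENNReal.ofReal_le_ofReal ?_))
    · exact ⟨x, hx, not_le.1 hω⟩
    · rw [pow_one, div_le_iff₀ (by positivity)]
      linarith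
  have h3 : (PM e F).real {ω : Om e | c1 * n1 x ≤ T q ω 0 x}ᶜ ≤ 1 / 2 := by
    rw [Measure.real]
    exact ENNReal.toReal_le_of_le_ofReal (by norm_num) h2
  rw [probReal_compl_eq_one_sub hm] at h3
  have h4 : c1 * n1 x * (1 / 2) ≤ c1 * n1 x * (PM e F).real {ω : Om e | c1 * n1 x ≤ T q ω 0 x} :=
    mul_le_mul_of_nonneg_left (by linarith) (by positivity)
  unfold g
  linarith

/-- the time constant is a norm -/
theorem L_lower (h : FarB e q F) : ∃ c : ℝ, 0 < c ∧ ∀ y : E e, c * nr y ≤ L q F y := by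
  obtain ⟨c, hc, N0, h⟩ := g_lower h
  refine ⟨c, hc, fun y => ?_⟩
  rcases eq_or_ne y 0 with rfl | hy
  · rw [nr_zero, mul_zero]; exact L_nonneg _
  have hny := nr_pos hy
  by_contra hlt
  push Not at hlt
  set δ := (c * nr y - L q F y) / 2 with hδ
  have hδ0 : 0 < δ := by rw [hδ]; linarith
  obtain ⟨N, hN⟩ := exists_nat_gt (c * ((e : ℝ) + 2) / δ)
  obtain ⟨N', hN'⟩ := exists_nat_gt ((N0 + ((e : ℝ) + 2)) / nr y)
  obtain ⟨n, h1, h2, h3⟩ := ((U_L (q := q) (F := F) y δ hδ0).and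
    ((eventually_ge_atTop N).and (eventually_ge_atTop N'))).exists
  have h4 := nr_sub_le ((n : ℝ) • y) ((n : ℝ) • y - vc (rnd ((n : ℝ) • y)))
  rw [sub_sub_cancel, nr_vc, nr_sub_comm] at h4
  have h5 := nr_rnd_sub ((n : ℝ) • y)
  have h6 : (n : ℝ) * nr y - ((e : ℝ) + 2) ≤ n1 (rnd ((n : ℝ) • y)) := by
    have h7 := nr_sub_le (vc (rnd ((n : ℝ) • y))) (vc (rnd ((n : ℝ) • y)) - (n : ℝ) • y)
    rw [sub_sub_cancel, nr_smul, abs_of_nonneg (Nat.cast_nonneg n), nr_vc] at h7
    linarith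
  rw [div_lt_iff₀ hδ0] at hN
  rw [div_lt_iff₀ hny] at hN'
  have h7 : (N : ℝ) ≤ n := by exact_mod_cast h2
  have h8 : (N' : ℝ) ≤ n := by exact_mod_cast h3
  have h9 : (N : ℝ) * δ ≤ n * δ := mul_le_mul_of_nonneg_right h7 hδ0.le
  have h10 : (N' : ℝ) * nr y ≤ n * nr y := mul_le_mul_of_nonneg_right h8 hny.le
  have h11 : (N0 : ℤ) ≤ n1 (rnd ((n : ℝ) • y)) := by
    have : (N0 : ℝ) ≤ n1 (rnd ((n : ℝ) • y)) := by linarith
    exact_mod_cast this
  have h12 := h _ h11
  have h13 := mul_le_mul_of_nonneg_left h6 hc.le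
  have h14 : c * ((n : ℝ) * nr y - ((e : ℝ) + 2)) = n * (L q F y + δ) + (n * δ - c * ((e : ℝ) + 2)) := by
    rw [hδ]; ring
  linarith

lemma L_pos (h : FarB e q F) {y : E e} (hy : y ≠ 0) : 0 < L q F y := by
  obtain ⟨c, hc, h⟩ := L_lower h
  exact (mul_pos hc (nr_pos hy)).trans_le (h y)

/-! ### compactness -/

lemma lf_u (c : E e) (i : Fin (e + 2)) : lf c (u i) = c i := by
  unfold lf dt
  rw [Finset.sum_eq_single i]
  · simp [vc, u]
  · intro j _ hj
    simp [vc, u, Pi.single_eq_of_ne hj]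
  · simp

lemma lf_neg (c : E e) (x : V e) : lf c (-x) = -lf c x := by
  unfold lf; rw [vc_neg, dt_neg]

lemma CC_coord {c : E e} (hc : c ∈ CC q F) (i : Fin (e + 2)) : |c i| ≤ q.b := by
  have h1 := (hc (u i)).trans (g_le q F (u i))
  have h2 := (hc (-u i)).trans (g_le q F (-u i))
  rw [n1_neg] at h2
  rw [lf_neg] at h2
  rw [lf_u] at h1 h2
  rw [n1_u] at h1 h2
  rw [abs_le]
  push_cast at h1 h2
  constructor <;> linarith

lemma CC_nr {c : E e} (hc : c ∈ CC q F) : nr c ≤ ((e : ℝ) + 2) * q.b := by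
  unfold nr
  calc ∑ i, |c i| ≤ ∑ _i : Fin (e + 2), q.b := Finset.sum_le_sum fun i _ => CC_coord hc i
    _ = ((e : ℝ) + 2) * q.b := by simp

lemma continuous_dt_left (y : E e) : Continuous fun c : E e => dt c y := by
  unfold dt
  fun_prop

lemma continuous_nr_sub (c : E e) : Continuous fun c' : E e => nr (c' - c) := by
  unfold nr
  fun_prop

lemma isCompact_CC : IsCompact (CC q F : Set (E e)) := by
  refine Metric.isCompact_of_isClosed_isBounded ?_ ?_
  · have : (CC q F : Set (E e)) = ⋂ x : V e, {c | lf c x ≤ g q F x} := by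
      ext c; simp [CC]
    rw [this]
    exact isClosed_iInter fun x => isClosed_le (continuous_dt_left (vc x)) continuous_const
  · refine (Metric.isBounded_closedBall (x := (0 : E e)) (r := q.b)).subset fun c hc => ?_
    rw [mem_closedBall_zero_iff, pi_norm_le_iff_of_nonneg q.hb.le]
    intro i
    rw [Real.norm_eq_abs]
    exact CC_coord hc i

lemma isCompact_DD (v : E e) : IsCompact (DD q F v) :=
  isCompact_CC.inter_right (isClosed_eq (continuous_dt_left v) continuous_const)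

lemma DD_nonempty (v : E e) : (DD q F v).Nonempty := exists_supp v

lemma L_ge_sub (v z : E e) : L q F v - q.b * nr z ≤ L q F (v + z) := by
  have h1 := L_add (q := q) (F := F) (v + z) (-z)
  rw [add_neg_cancel_right] at h1
  have h2 := L_bound (q := q) (F := F) (-z)
  rw [nr_neg] at h2
  linarith

/-- a closed set of functionals which do not support at `v` has no functionals which support near
`v` -/
lemma near_supp {v : E e} {K : Set (E e)} (hK : IsClosed K)
    (h : ∀ c ∈ K, c ∈ CC q F → dt c v ≠ L q F v) (R : ℝ) :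
    ∃ s0 : ℝ, 0 < s0 ∧ ∀ s : ℝ, 0 < s → s ≤ s0 → ∀ z : E e, nr z ≤ R →
      ∀ c ∈ CC q F, dt c (v + s • z) = L q F (v + s • z) → c ∉ K := by
  have hc : IsCompact (CC q F ∩ K) := isCompact_CC.inter_right hK
  obtain ⟨η, hη, h1⟩ : ∃ η : ℝ, 0 < η ∧ ∀ c ∈ CC q F ∩ K, dt c v ≤ L q F v - η := by
    rcases (CC q F ∩ K).eq_empty_or_nonempty with he | hne
    · exact ⟨1, one_pos, fun c hc => absurd hc (by rw [he]; exact Set.notMem_empty c)⟩
    · obtain ⟨c0, hc0, hmax⟩ := hc.exists_isMaxOn hne (continuous_dt_left v).continuousOn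
      have h2 : dt c0 v < L q F v := lt_of_le_of_ne (dt_le_L hc0.1 v) (h c0 hc0.2 hc0.1)
      refine ⟨L q F v - dt c0 v, by linarith, fun c hc => ?_⟩
      have := hmax hc
      simp only [Set.mem_ofPred_eq] at this
      linarith
  set B : ℝ := ((e : ℝ) + 3) * q.b * (|R| + 1) with hB
  have hb := q.hb
  have hB0 : 0 < B := by positivity
  refine ⟨η / (2 * B), by positivity, fun s hs hs0 z hz c hcc hcs hcK => ?_⟩
  have h2 := h1 c ⟨hcc, hcK⟩
  have h3 := L_ge_sub (q := q) (F := F) v (s • z)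
  rw [← hcs, nr_smul, abs_of_pos hs, dt_add, dt_smul] at h3
  have h4 := (abs_le.1 (abs_dt_le c z)).2
  have h5 := CC_nr hcc
  have h6 := nr_nonneg z
  have h7 : nr z ≤ |R| + 1 := hz.trans (by linarith [le_abs_self R])
  have h8 : dt c z ≤ ((e : ℝ) + 2) * q.b * (|R| + 1) := by
    refine h4.trans (mul_le_mul h5 h7 h6 (by positivity))
  have h9 : q.b * nr z ≤ q.b * (|R| + 1) := mul_le_mul_of_nonneg_left h7 hb.le
  have h10 : s * dt c z ≤ s * (((e : ℝ) + 2) * q.b * (|R| + 1)) :=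
    mul_le_mul_of_nonneg_left h8 hs.le
  have h11 : s * (q.b * nr z) ≤ s * (q.b * (|R| + 1)) := mul_le_mul_of_nonneg_left h9 hs.le
  have h12 : η ≤ s * B := by
    have : s * B = s * (((e : ℝ) + 2) * q.b * (|R| + 1)) + s * (q.b * (|R| + 1)) := by
      rw [hB]; ring
    rw [this]
    have : q.b * (s * nr z) = s * (q.b * nr z) := by ring
    linarith
  have h13 : s * B ≤ η / 2 := by
    calc s * B ≤ η / (2 * B) * B := mul_le_mul_of_nonneg_right hs0 hB0.le
      _ = η / 2 := by field_simp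
  linarith

/-- the one-sided derivative is at most the maximum over the supporting functionals -/
lemma tangency {v w : E e} {m : ℝ} (h : ∀ c ∈ CC q F, dt c v = L q F v → dt c w ≤ m) {δ : ℝ}
    (hδ : 0 < δ) : ∃ s0 : ℝ, 0 < s0 ∧ ∀ s : ℝ, 0 < s → s ≤ s0 →
      L q F (v + s • w) ≤ L q F v + s * (m + δ) := by
  obtain ⟨s0, hs0, h1⟩ := near_supp (q := q) (F := F) (v := v) (K := {c | m + δ ≤ dt c w})
    (isClosed_le continuous_const (continuous_dt_left w)) (fun c hc hcc hcv => by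
      have := h c hcc hcv
      have h2 : m + δ ≤ dt c w := hc
      linarith) (nr w)
  refine ⟨s0, hs0, fun s hs hss => ?_⟩
  obtain ⟨c, hc, hcs⟩ := exists_supp (q := q) (F := F) (v + s • w)
  have h2 := h1 s hs hss w le_rfl c hc hcs
  have h3 : dt c w < m + δ := not_le.1 h2
  rw [← hcs, dt_add, dt_smul]
  have h4 := dt_le_L hc v
  have h5 := mul_le_mul_of_nonneg_left h3.le hs.le
  linarith

/-- uniqueness implies differentiability -/
lemma dif_of_unique {y c : E e} (hc : c ∈ CC q F) (hcy : dt c y = L q F y)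
    (h : ∀ c' ∈ CC q F, dt c' y = L q F y → c' = c) : Dif q F c y := by
  refine ⟨hc, fun δ hδ => ?_⟩
  obtain ⟨s0, hs0, h1⟩ := near_supp (q := q) (F := F) (v := y) (K := {c' | δ / 2 ≤ nr (c' - c)})
    (isClosed_le continuous_const (continuous_nr_sub c)) (fun c' hc' hcc hcv => by
      have h3 := h c' hcc hcv
      have h2 : δ / 2 ≤ nr (c' - c) := hc'
      rw [h3, sub_self, nr_zero] at h2
      linarith) 1
  refine ⟨s0, hs0, fun s hs hss z hz => ?_⟩
  obtain ⟨c', hc', hcs⟩ := exists_supp (q := q) (F := F) (y + s • z)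
  have h2 := h1 s hs hss z hz c' hc' hcs
  have h3 : nr (c' - c) < δ / 2 := not_le.1 h2
  have h4 : dt c' z ≤ dt c z + δ / 2 := by
    have h5 := (abs_le.1 (abs_dt_le (c' - c) z)).2
    rw [sub_dt] at h5
    have h6 : nr (c' - c) * nr z ≤ δ / 2 * 1 :=
      mul_le_mul h3.le hz (nr_nonneg z) (by positivity)
    linarith
  have h5 : L q F (y + s • z) ≤ dt c (y + s • z) + δ / 2 * s := by
    rw [← hcs, dt_add, dt_smul, dt_add, dt_smul, hcy]
    have h6 := dt_le_L hc' y
    have h7 := mul_le_mul_of_nonneg_left h4 hs.le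
    linarith
  have h6 := (U_L (q := q) (F := F) (y + s • z)).mono h5 (δ / 2 * s) (by positivity)
  filter_upwards [h6] with n hn
  refine hn.trans (mul_le_mul_of_nonneg_left (by linarith) (Nat.cast_nonneg n))

end Pool.Agent.J6H9.NX
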