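import Pool.Agent.J6H9.NX.G2

/-!
# Module DIFU: uniform differentiability along a face
-/

set_option autoImplicit false

open MeasureTheory ProbabilityTheory Filter Topology
open scoped ENNReal

namespace Pool.Agent.J6H9.NX

open Pool.Agent.J6H99.NX

variable {e : ℕ} {q : Par} {F : Measure ℝ} [IsProbabilityMeasure F] [MB q F]

lemma L_lip (y y' : E e) : L q F y ≤ L q F y' + q.b * nr (y - y') := by
  have h1 := L_add (q := q) (F := F) y' (y - y')
  rw [add_sub_cancel] at h1
  linarith [L_bound (q := q) (F := F) (y - y')]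

lemma dt_lip (c y y' : E e) : dt c y ≤ dt c y' + nr c * nr (y - y') := by
  have h1 := (abs_le.1 (abs_dt_le c (y - y'))).2
  rw [dt_sub] at h1
  linarith

lemma isCompact_sph (e : ℕ) : IsCompact {y : E e | nr y = 1} := by
  have hcont : Continuous fun y : E e => nr y := by unfold nr; fun_prop
  refine Metric.isCompact_of_isClosed_isBounded (isClosed_eq hcont continuous_const) ?_
  refine (Metric.isBounded_closedBall (x := (0 : E e)) (r := 1)).subset fun y hy => ?_
  rw [mem_closedBall_zero_iff, pi_norm_le_iff_of_nonneg zero_le_one]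
  intro i
  have h1 : nr y = 1 := hy
  rw [Real.norm_eq_abs, ← h1]
  exact abs_coord_le y i

/-- finite covers of the sphere by balls with given radii -/
lemma cover_sph (r : E e → ℝ) (hr : ∀ y, 0 < r y) : ∃ t : Finset (E e),
    ∀ x : E e, nr x = 1 → ∃ y ∈ t, nr y = 1 ∧ nr (x - y) < r y := by
  obtain ⟨t, hts, ht⟩ := (isCompact_sph e).elim_nhds_subcover
    (fun y => {y' : E e | nr (y' - y) < r y}) fun y _ =>
      (isOpen_lt (continuous_nr_sub y) continuous_const).mem_nhds (by simpa using hr y)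
  refine ⟨t, fun x hx => ?_⟩
  have h4 := ht hx
  simp only [Set.mem_iUnion, Set.mem_ofPred_eq] at h4
  obtain ⟨y, hyt, hy⟩ := h4
  exact ⟨y, hyt, hts y hyt, hy⟩

lemma exists_pos_le' {α : Type*} (t : Finset α) (f : α → ℝ) (hf : ∀ a, 0 < f a) :
    ∃ η : ℝ, 0 < η ∧ ∀ a ∈ t, η ≤ f a := by
  classical
  induction t using Finset.induction_on with
  | empty => exact ⟨1, one_pos, by simp⟩
  | insert a t ha ih =>
    obtain ⟨η, h1, h2⟩ := ih
    refine ⟨min η (f a), lt_min h1 (hf a), fun b hb => ?_⟩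
    rcases Finset.mem_insert.1 hb with rfl | hb
    · exact min_le_right _ _
    · exact (min_le_left _ _).trans (h2 b hb)

/-- the mean passage time is uniformly at most the time constant, up to `o(n1 x)` -/
lemma g_le_L {ε : ℝ} (hε : 0 < ε) : ∃ N : ℕ, ∀ x : V e, (N : ℤ) ≤ n1 x →
    g q F x ≤ L q F (vc x) + ε * n1 x := by
  have hb := q.hb
  choose N hN using fun y : E e => eventually_atTop.1 (U_L (q := q) (F := F) y (ε / 4)
    (by positivity))
  obtain ⟨t, ht⟩ := cover_sph (e := e) (fun _ => ε / (8 * q.b)) fun _ => by positivity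
  obtain ⟨N1, hN1⟩ := exists_nat_gt (q.b * ((e : ℝ) + 2) / (ε / 4))
  refine ⟨t.sup N + N1 + 1, fun x hx => ?_⟩
  obtain ⟨n, hn⟩ := Int.eq_ofNat_of_zero_le (n1_nonneg x)
  rw [hn] at hx
  have hx' : t.sup N + N1 + 1 ≤ n := by exact_mod_cast hx
  have hn0 : (0 : ℝ) < n := by
    have : 0 < n := by omega
    exact_mod_cast this
  rw [hn, Int.cast_natCast]
  have hnx : nr (vc x) = n := by rw [nr_vc, hn, Int.cast_natCast]
  set y' : E e := (n : ℝ)⁻¹ • vc x with hy'
  have hxy : vc x = (n : ℝ) • y' := by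
    rw [hy', smul_smul, mul_inv_cancel₀ hn0.ne', one_smul]
  have hy'1 : nr y' = 1 := by
    rw [hy', nr_smul, hnx, abs_of_pos (inv_pos.2 hn0), inv_mul_cancel₀ hn0.ne']
  obtain ⟨y, hyt, hy1, hyy⟩ := ht y' hy'1
  have h1 := hN y n ((Finset.le_sup (f := N) hyt).trans (by omega))
  have h2 := g_sub_le q F x (rnd ((n : ℝ) • y))
  have h3 : (n1 (x - rnd ((n : ℝ) • y)) : ℝ) ≤ n * (ε / (8 * q.b)) + ((e : ℝ) + 2) := by
    rw [← nr_vc, vc_sub, hxy]
    have h4 := nr_tri ((n : ℝ) • y') ((n : ℝ) • y) (vc (rnd ((n : ℝ) • y)))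
    have h5 := nr_rnd_sub ((n : ℝ) • y)
    rw [nr_sub_comm] at h5
    have h6 : nr ((n : ℝ) • y' - (n : ℝ) • y) ≤ n * (ε / (8 * q.b)) := by
      rw [← smul_sub, nr_smul, abs_of_pos hn0]
      exact mul_le_mul_of_nonneg_left hyy.le hn0.le
    linarith
  have h4 := mul_le_mul_of_nonneg_left h3 hb.le
  have h5 := L_lip (q := q) (F := F) y y'
  rw [nr_sub_comm] at h5
  have h6 : q.b * nr (y' - y) ≤ ε / 8 := by
    calc q.b * nr (y' - y) ≤ q.b * (ε / (8 * q.b)) := mul_le_mul_of_nonneg_left hyy.le hb.le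
      _ = ε / 8 := by field_simp
  have h7 : L q F (vc x) = n * L q F y' := by rw [hxy, L_smul hn0]
  have h8 : (n : ℝ) * L q F y ≤ n * (L q F y' + ε / 8) :=
    mul_le_mul_of_nonneg_left (by linarith) hn0.le
  have h9 : q.b * ((e : ℝ) + 2) ≤ n * (ε / 4) := by
    rw [div_lt_iff₀ (by positivity)] at hN1
    have h10 : (N1 : ℝ) ≤ n := by
      have : N1 ≤ n := by omega
      exact_mod_cast this
    have h11 : (N1 : ℝ) * (ε / 4) ≤ n * (ε / 4) := mul_le_mul_of_nonneg_right h10 (by positivity)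
    linarith
  have h10 : q.b * (n * (ε / (8 * q.b)) + ((e : ℝ) + 2)) = n * (ε / 8) + q.b * ((e : ℝ) + 2) := by
    field_simp
  rw [h7]
  nlinarith

/-- uniform differentiability for the time constant, on the sphere -/
lemma uniform_dif {c : E e} (hc : c ∈ CC q F)
    (hD : ∀ y : E e, y ≠ 0 → Supp q F c y → Dif q F c y) {δ : ℝ} (hδ : 0 < δ) :
    ∃ s κ : ℝ, 0 < s ∧ s ≤ 1 ∧ 0 < κ ∧ ∀ x : E e, nr x = 1 → L q F x ≤ dt c x + κ →
      ∀ z : E e, nr z ≤ 1 → L q F (x + s • z) ≤ dt c (x + s • z) + δ * s := by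
  have hb := q.hb
  have hB : 0 < q.b + nr c := by have := nr_nonneg c; linarith
  -- local version
  have hloc : ∀ y : E e, ∃ r s κ : ℝ, 0 < r ∧ 0 < s ∧ 0 < κ ∧ (nr y = 1 → ∀ x : E e,
      nr (x - y) < r → L q F x ≤ dt c x + κ →
      ∀ z : E e, nr z ≤ 1 → L q F (x + s • z) ≤ dt c (x + s • z) + δ / 2 * s) := by
    intro y
    by_cases hy1 : nr y = 1
    · have hy0 : y ≠ 0 := by
        rintro rfl
        rw [nr_zero] at hy1
        exact zero_ne_one hy1
      by_cases hcy : dt c y = L q F y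
      · obtain ⟨s, hs, h1⟩ := (hD y hy0 (supp_iff.2 ⟨hc, hcy⟩)).2 (δ / 4) (by positivity)
        refine ⟨δ / 4 * s / (q.b + nr c), s, 1, by positivity, hs, one_pos,
          fun _ x hx _ z hz => ?_⟩
        have h2 := L_le_iff.2 (show U q F (y + s • z) (dt c (y + s • z) + δ / 4 * s) from
          U_of (K := 0) fun η hη => by
            filter_upwards [h1 s hs le_rfl z hz] with n hn
            have h3 : (0 : ℝ) ≤ n * η := by positivity
            rw [add_zero]
            calc g q F (rnd ((n : ℝ) • (y + s • z))) ≤ n * (dt c (y + s • z) + δ / 4 * s) := hn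
              _ ≤ n * (dt c (y + s • z) + δ / 4 * s + η) := by rw [mul_add (n : ℝ) _ η]; linarith)
        have h3 := L_lip (q := q) (F := F) (x + s • z) (y + s • z)
        have h4 := dt_lip c (y + s • z) (x + s • z)
        rw [add_sub_add_right_eq_sub] at h3 h4
        rw [nr_sub_comm y x] at h4
        have h5 : (q.b + nr c) * nr (x - y) ≤ δ / 4 * s := by
          have := mul_le_mul_of_nonneg_left hx.le hB.le
          rwa [mul_div_cancel₀ _ hB.ne'] at this
        have h6 : (q.b + nr c) * nr (x - y) = q.b * nr (x - y) + nr c * nr (x - y) := by ring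
        linarith
      · have h1 : dt c y < L q F y := lt_of_le_of_ne (dt_le_L hc y) hcy
        set κ := (L q F y - dt c y) / 2 with hκ
        have hκ0 : 0 < κ := by rw [hκ]; linarith
        refine ⟨κ / (q.b + nr c), 1, κ, by positivity, one_pos, hκ0, fun _ x hx hLx => ?_⟩
        exfalso
        have h3 := L_lip (q := q) (F := F) y x
        have h4 := dt_lip c x y
        rw [nr_sub_comm] at h3
        have h5 : (q.b + nr c) * nr (x - y) < κ := by
          have := mul_lt_mul_of_pos_left hx hB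
          rwa [mul_div_cancel₀ _ hB.ne'] at this
        have h6 : (q.b + nr c) * nr (x - y) = q.b * nr (x - y) + nr c * nr (x - y) := by ring
        have h7 : L q F y - dt c y = 2 * κ := by rw [hκ]; ring
        linarith
    · exact ⟨1, 1, 1, one_pos, one_pos, one_pos, fun h => absurd h hy1⟩
  choose r s κ hr hs hκ h using hloc
  obtain ⟨t, ht⟩ := cover_sph r hr
  obtain ⟨s0, hs0, hs1⟩ := exists_pos_le' t s hs
  obtain ⟨κ0, hκ0, hκ1⟩ := exists_pos_le' t κ hκ
  set s' := min s0 1 with hs'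
  have hs'0 : 0 < s' := lt_min hs0 one_pos
  refine ⟨s', min κ0 (δ / 2 * s'), hs'0, min_le_right _ _, lt_min hκ0 (by positivity),
    fun x hx1 hLx z hz => ?_⟩
  obtain ⟨y, hyt, hy1, hxy⟩ := ht x hx1
  have h1 := h y hy1 x hxy (hLx.trans (add_le_add le_rfl ((min_le_left _ _).trans (hκ1 y hyt)))) z hz
  have h2 : L q F x ≤ dt c x + δ / 2 * s' := hLx.trans (add_le_add le_rfl (min_le_right _ _))
  -- convexity
  set a := s' / s y with ha
  have hsy := hs y
  have ha0 : 0 < a := div_pos hs'0 hsy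
  have ha1 : a ≤ 1 := by
    rw [ha, div_le_one hsy]
    exact (min_le_left _ _).trans (hs1 y hyt)
  have has : a * s y = s' := by rw [ha]; field_simp
  have h3 : x + s' • z = (1 - a) • x + a • (x + s y • z) := by
    rw [smul_add, smul_smul, has, sub_smul, one_smul]
    abel
  have h4 : L q F (x + s' • z) ≤ (1 - a) * L q F x + a * L q F (x + s y • z) := by
    rw [h3]
    rcases ha1.eq_or_lt with h5 | h5
    · rw [h5, sub_self, zero_smul, one_smul, zero_mul, one_mul, zero_add, zero_add]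
    · refine (L_add _ _).trans (le_of_eq ?_)
      rw [L_smul (by linarith : (0 : ℝ) < 1 - a), L_smul ha0]
  have h5 : dt c (x + s' • z) = (1 - a) * dt c x + a * dt c (x + s y • z) := by
    rw [h3, dt_add, dt_smul, dt_smul]
  have h6 := mul_le_mul_of_nonneg_left h1 ha0.le
  have h7 := mul_le_mul_of_nonneg_left h2 (by linarith : (0 : ℝ) ≤ 1 - a)
  have h8 : a * (δ / 2 * s y) = δ / 2 * s' := by rw [← has]; ring
  have h9 : (1 - a) * (δ / 2 * s') ≤ δ / 2 * s' := by
    have : 0 ≤ a * (δ / 2 * s') := by positivity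
    linarith
  rw [h5]
  linarith

end Pool.Agent.J6H9.NX
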